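import Pool.Agent.W81.R1N.App2N

/-!
The asymptotic formula of Hardy and Littlewood for the number of representations of an odd integer
as a prime and twice a square, for almost all odd integers of every interval `(N, N + H]` with
`√N (log N)^B ≤ H ≤ N`.
-/

set_option autoImplicit false

namespace Pool.Agent.Results.MP_6b8fc7_nt.ShortIntervalAsymptotic

open Finset Filter

/-- the number `N(n)` of representations: the number of `m ≥ 0` with `n - 2m²` prime -/
noncomputable def reps (n : ℕ) : ℕ :=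
  ((range (n + 1)).filter (fun m : ℕ => 2 * m ^ 2 ≤ n ∧ (n - 2 * m ^ 2).Prime)).card

/-- the sum of `1 / log (n - 2m²)` over `m ≥ 1` with `2m² + 2 ≤ n` -/
noncomputable def mainSum (n : ℕ) : ℝ :=
  ∑ m ∈ (Icc 1 n).filter (fun m : ℕ => 2 * m ^ 2 + 2 ≤ n), 1 / Real.log ((n - 2 * m ^ 2 : ℕ) : ℝ)

/-- `∏ (1 - (2n/p)/(p-1))` over the odd primes `p < X` -/
noncomputable def partialProd (n X : ℕ) : ℝ :=
  ∏ p ∈ (range X).filter (fun p : ℕ => Nat.Prime p ∧ 2 < p),
    (1 - ((jacobiSym ((2 * n : ℕ) : ℤ) p : ℤ) : ℝ) / ((p : ℝ) - 1))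

lemma prod_eq (n X : ℕ) : Pool.Agent.W80.EC.Pc (-((2 : ℕ) : ℤ)) ((0 ^ 2 + 4 * 2 * n : ℕ) : ℤ) X =
    partialProd n X := by
  unfold Pool.Agent.W80.EC.Pc partialProd
  have hset : (range X).filter (fun p : ℕ => Nat.Prime p ∧ 2 < p ∧ ¬ ((p : ℤ) ∣ -((2 : ℕ) : ℤ))) =
      (range X).filter (fun p : ℕ => Nat.Prime p ∧ 2 < p) := by
    apply filter_congr
    intro p _
    constructor
    · rintro ⟨h1, h2, _⟩
      exact ⟨h1, h2⟩
    · rintro ⟨h1, h2⟩
      refine ⟨h1, h2, fun h => ?_⟩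
      rw [dvd_neg, Int.natCast_dvd_natCast] at h
      have := Nat.le_of_dvd (by norm_num) h
      omega
  rw [hset]
  apply prod_congr rfl
  intro p hp
  rw [mem_filter] at hp
  have hp2 : p ≠ 2 := by omega
  have e1 : ((0 ^ 2 + 4 * 2 * n : ℕ) : ℤ) = (2 : ℤ) ^ 2 * ((2 * n : ℕ) : ℤ) := by push_cast; ring
  have h2 : (2 : ℤ).gcd p = 1 := by
    have h3 : Nat.Coprime 2 p := (Nat.coprime_primes Nat.prime_two hp.2.1).2 (Ne.symm hp2)
    exact h3
  rw [e1, jacobiSym.mul_left, jacobiSym.sq_one' h2, one_mul]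

lemma reps_eq (n : ℕ) (hn : 1 ≤ n) : Pool.Agent.W81.R1N.rr 2 0 n ≤ reps n ∧
    reps n ≤ Pool.Agent.W81.R1N.rr 2 0 n + 1 := by
  unfold Pool.Agent.W81.R1N.rr reps
  simp only [zero_mul, add_zero]
  constructor
  · apply card_le_card
    intro m hm
    rw [mem_filter, mem_Icc] at hm
    rw [mem_filter, mem_range]
    exact ⟨by omega, hm.2⟩
  · have hsub : (range (n + 1)).filter (fun m : ℕ => 2 * m ^ 2 ≤ n ∧ (n - 2 * m ^ 2).Prime) ⊆
        insert 0 ((Icc 1 n).filter (fun m : ℕ => 2 * m ^ 2 ≤ n ∧ (n - 2 * m ^ 2).Prime)) := by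
      intro m hm
      rw [mem_filter, mem_range] at hm
      rw [mem_insert, mem_filter, mem_Icc]
      rcases Nat.eq_zero_or_pos m with h | h
      · exact Or.inl h
      · exact Or.inr ⟨by omega, hm.2⟩
    exact (card_le_card hsub).trans (card_insert_le _ _)

open Classical in
/-- **Prime plus twice a square, almost all odd integers of short intervals.** For all `U` and
`0 < ε ≤ 1/2` there are `B, N₀` such that for all `N ≥ N₀` and `√N (log N)^B ≤ H ≤ N`, all odd
integers `n` of the interval `(N, N + H]` but at most `H/(log N)^U` have the following property: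
the infinite product `∏ (1 - (2n/p)/(p-1))` over the odd primes converges to some
`𝔖 ≥ 1/(8 log N)`, the number `N(n)` of `m ≥ 0` with `n - 2m²` prime equals
`2 𝔖 ∑_m 1/log(n - 2m²) + O*(𝔖 √n/(log n)^U)`, it is `(1 + O*(ε)) 𝔖 √(2n)/log n`, and in particular
`n` is the sum of a prime and twice a square. -/
theorem result (U : ℕ) (ε : ℝ) (hε : 0 < ε) (hε1 : ε ≤ 1 / 2) : ∃ B N0 : ℕ, ∀ N H : ℕ, N0 ≤ N →
    Real.sqrt N * Real.log N ^ B ≤ H → H ≤ N →
    ∃ Bad : Finset ℕ, (Bad.card : ℝ) ≤ H / Real.log N ^ U ∧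
      ∀ n : ℕ, N < n → n ≤ N + H → n ∉ Bad → Odd n →
        ∃ S : ℝ, 0 < S ∧ Tendsto (fun X : ℕ => partialProd n X) atTop (nhds S) ∧
          1 / (8 * Real.log N) ≤ S ∧
          |(reps n : ℝ) - 2 * S * mainSum n| ≤ S * (Real.sqrt n / Real.log n ^ U) ∧
          |(reps n : ℝ) - S * (Real.sqrt (2 * n) / Real.log n)| ≤
            ε * (S * (Real.sqrt (2 * n) / Real.log n)) ∧
          ∃ p m : ℕ, p.Prime ∧ n = p + 2 * m ^ 2 := by
  obtain ⟨B, N0, h⟩ := Pool.Agent.W81.R1N.app 2 0 (by norm_num) (U + 2) (ε / 2) (by linarith)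
    (by linarith)
  obtain ⟨N1, hN1⟩ := eventually_atTop.mp ((Pool.Agent.H442R2.EHI.evt_log_ge (100 / ε)).and
    (Pool.Agent.H442R2.EHI.evt_log_pow (U + 3) (1 / 2) (by norm_num)))
  refine ⟨B, N0 + N1 + 3, fun N H hN hH1 hH2 => ?_⟩
  obtain ⟨Bad, hBad, hgood⟩ := h N H (by omega) hH1 hH2
  obtain ⟨hNL, -⟩ := hN1 N (by omega)
  have hie : 1 ≤ 1 / ε := by rw [le_div_iff₀ hε]; linarith
  have h100 : 100 / ε = 100 * (1 / ε) := by ring
  have hLN1 : 1 ≤ Real.log N := by linarith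
  refine ⟨Bad, hBad.trans ?_, fun n hn1 hn2 hnB hodd => ?_⟩
  · exact div_le_div_of_nonneg_left (Nat.cast_nonneg _) (by positivity)
      (pow_le_pow_right₀ hLN1 (by omega))
  obtain ⟨K, hK, hlim, hlow, hA, hB⟩ := hgood n (mem_Ioc.2 ⟨hn1, hn2⟩) hnB (by
      obtain ⟨k, hk⟩ := hodd
      have h1 : Int.gcd (-((2 : ℕ) : ℤ)) (-((0 : ℕ) : ℤ)) = 2 := by decide
      rw [h1]
      have h2 : Nat.Coprime 2 n := by
        rw [Nat.coprime_two_left]
        exact ⟨k, hk⟩
      exact h2)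
    (by
      intro hcon
      obtain ⟨r, hr⟩ := hcon
      obtain ⟨k, hk⟩ := hodd
      have h2 : 2 ∣ r := by
        have h3 : 2 ∣ r * r := ⟨4 * n, by rw [← hr]; ring⟩
        rcases (Nat.Prime.dvd_mul Nat.prime_two).1 h3 with h4 | h4 <;> exact h4
      obtain ⟨s, rfl⟩ := h2
      have h5 : 2 * n = s * s := by
        have h6 : 4 * (2 * n) = 4 * (s * s) := by
          calc 4 * (2 * n) = 0 ^ 2 + 4 * 2 * n := by ring
            _ = 2 * s * (2 * s) := hr
            _ = _ := by ring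
        omega
      have h7 : 2 ∣ s := by
        have h3 : 2 ∣ s * s := ⟨n, by rw [← h5]⟩
        rcases (Nat.Prime.dvd_mul Nat.prime_two).1 h3 with h4 | h4 <;> exact h4
      obtain ⟨t, rfl⟩ := h7
      have h8 : n = 2 * (t * t) := by
        have h9 : 2 * n = 2 * (2 * (t * t)) := by rw [h5]; ring
        omega
      omega) (by
      rintro ⟨-, he⟩
      rw [Nat.even_iff] at he
      obtain ⟨k, hk⟩ := hodd
      omega)
  have hep : Pool.Agent.W80.EC.ep (-((2 : ℕ) : ℤ)) (-((0 : ℕ) : ℤ)) = 2 := by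
    unfold Pool.Agent.W80.EC.ep
    rw [if_pos]
    decide
  have hGf : Pool.Agent.W80.EC.Gf (-((2 : ℕ) : ℤ)) (-((0 : ℕ) : ℤ)) = 1 := by
    unfold Pool.Agent.W80.EC.Gf
    have : Int.gcd (-((2 : ℕ) : ℤ)) (-((0 : ℕ) : ℤ)) = 2 := by decide
    rw [this, Nat.Prime.primeFactors Nat.prime_two, filter_singleton, if_neg (by norm_num), prod_empty]
  have hJ : Pool.Agent.W81.R1N.JJ 2 0 n = mainSum n := by
    unfold Pool.Agent.W81.R1N.JJ mainSum
    simp only [zero_mul, add_zero]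
  rw [hep, hGf, mul_one] at hlow hA hB
  rw [hJ] at hA
  obtain ⟨hnL, hnp⟩ := hN1 n (by omega)
  have hn0 : (0 : ℝ) < n := by
    have : 0 < n := by omega
    exact_mod_cast this
  have hNr : (0 : ℝ) < N := by
    have : 0 < N := by omega
    exact_mod_cast this
  have hLNn : Real.log N ≤ Real.log n := by
    apply Real.log_le_log hNr
    exact_mod_cast hn1.le
  set L := Real.log n with hL
  have hL0 : 0 < L := by linarith
  have hL1 : 1 ≤ L := by linarith
  have hsn : Real.sqrt n = (n : ℝ) ^ (1 / 2 : ℝ) := Real.sqrt_eq_rpow _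
  rw [← hsn] at hnp
  have hs0 : 0 < Real.sqrt n := Real.sqrt_pos.2 hn0
  have hKlow : 1 / (8 * Real.log N) ≤ K := by
    have h1 : 1 / (8 * Real.log N) = (1 / (4 * Real.log N)) / 2 := by ring
    rw [h1]
    linarith
  have hKlow2 : 1 / (8 * L) ≤ K := by
    refine le_trans ?_ hKlow
    apply one_div_le_one_div_of_le (by linarith)
    linarith
  have hK8 : 1 ≤ K * (8 * L) := by rwa [div_le_iff₀ (by positivity)] at hKlow2
  have hs2n : 2 * Real.sqrt ((n : ℝ) / ((2 : ℕ) : ℝ)) = Real.sqrt (2 * n) := by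
    have e1 : (2 : ℝ) * n = 2 ^ 2 * (n / 2) := by ring
    rw [e1, Real.sqrt_mul (by positivity), Real.sqrt_sq (by norm_num)]
    norm_num
  have hM : 2 * K * (Real.sqrt ((n : ℝ) / ((2 : ℕ) : ℝ)) / L) = K * (Real.sqrt (2 * n) / L) := by
    rw [← hs2n]; ring
  rw [hM] at hB
  obtain ⟨hr1, hr2⟩ := reps_eq n (by omega)
  have hr1' : (Pool.Agent.W81.R1N.rr 2 0 n : ℝ) ≤ reps n := by exact_mod_cast hr1
  have hr2' : (reps n : ℝ) ≤ Pool.Agent.W81.R1N.rr 2 0 n + 1 := by exact_mod_cast hr2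
  have hp1 : 1 ≤ L ^ U := one_le_pow₀ hL1
  have hLU : L ^ (U + 3) = L ^ U * L ^ 3 := pow_add _ _ _
  have hone : 1 ≤ K * (Real.sqrt n / L ^ U) / 2 := by
    have h1 : 16 * (L * L ^ U) ≤ Real.sqrt n := by
      refine le_trans ?_ hnp
      rw [hLU]
      have hL100 : 100 ≤ L := by linarith
      have h2 : 16 * L ≤ L ^ 3 := by
        have h3 : 16 ≤ L ^ 2 := by nlinarith
        calc 16 * L ≤ L ^ 2 * L := by gcongr
          _ = L ^ 3 := by ring
      calc 16 * (L * L ^ U) = (16 * L) * L ^ U := by ring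
        _ ≤ L ^ 3 * L ^ U := by gcongr
        _ = _ := by ring
    rw [mul_div_assoc', div_div, le_div_iff₀ (by positivity)]
    calc 1 * (L ^ U * 2) ≤ (K * (8 * L)) * (L ^ U * 2) := by gcongr
      _ = K * (16 * (L * L ^ U)) := by ring
      _ ≤ K * Real.sqrt n := by gcongr
  have htwo : 1 ≤ ε / 2 * (K * (Real.sqrt (2 * n) / L)) := by
    have h1 : (16 / ε) * (L * L) ≤ Real.sqrt (2 * n) := by
      have h2 : Real.sqrt n ≤ Real.sqrt (2 * n) := Real.sqrt_le_sqrt (by linarith)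
      refine le_trans ?_ (hnp.trans h2)
      rw [hLU]
      have h3 : (16 / ε) ≤ L := by
        have : 16 / ε = 16 * (1 / ε) := by ring
        rw [this]; linarith
      calc (16 / ε) * (L * L) ≤ L * (L * L) := by gcongr
        _ = 1 * L ^ 3 := by ring
        _ ≤ L ^ U * L ^ 3 := by gcongr
    have h4 : ε / 2 * (K * (((16 / ε) * (L * L)) / L)) ≤ ε / 2 * (K * (Real.sqrt (2 * n) / L)) := by
      gcongr
    refine le_trans ?_ h4
    have h5 : ε / 2 * (K * (((16 / ε) * (L * L)) / L)) = K * (8 * L) := by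
      field_simp
      ring
    rw [h5]
    exact hK8
  have hAA : |(reps n : ℝ) - 2 * K * mainSum n| ≤ K * (Real.sqrt n / L ^ U) := by
    have h1 : 2 * K * (Real.sqrt n / L ^ (U + 2)) ≤ K * (Real.sqrt n / L ^ U) / 2 := by
      have h2 : 2 * K * (Real.sqrt n / L ^ (U + 2)) = (K * (Real.sqrt n / L ^ U)) * (2 / L ^ 2) := by
        rw [pow_add]
        field_simp
      have h3 : 2 / L ^ 2 ≤ 1 / 2 := by
        rw [div_le_iff₀ (by positivity)]
        have hL100 : 100 ≤ L := by linarith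
        nlinarith
      rw [h2]
      have h4 : 0 ≤ K * (Real.sqrt n / L ^ U) := by positivity
      nlinarith
    have h5 := abs_le.1 hA
    rw [abs_le]
    constructor <;> linarith
  have hBB : |(reps n : ℝ) - K * (Real.sqrt (2 * n) / L)| ≤ ε * (K * (Real.sqrt (2 * n) / L)) := by
    have h5 := abs_le.1 hB
    rw [abs_le]
    constructor <;> linarith
  refine ⟨K, hK, ?_, hKlow, hAA, hBB, ?_⟩
  · simp_rw [← prod_eq]
    exact hlim
  · have hpos : 0 < reps n := by
      have h1 : 0 < K * (Real.sqrt (2 * n) / L) := by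
        have := Real.sqrt_pos.2 (show (0 : ℝ) < 2 * n by linarith)
        positivity
      have h2 := (abs_le.1 hBB).1
      have h3 : 0 < (reps n : ℝ) := by nlinarith
      exact_mod_cast h3
    unfold reps at hpos
    rw [card_pos] at hpos
    obtain ⟨m, hm⟩ := hpos
    rw [mem_filter, mem_range] at hm
    exact ⟨n - 2 * m ^ 2, m, hm.2.2, by omega⟩

end Pool.Agent.Results.MP_6b8fc7_nt.ShortIntervalAsymptotic
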